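import Pool.Agent.H96.KR.Gp

/-!
# The Knörr–Robinson conjecture and fields of values of degree prime to `r`

Let `p` and `r` be primes, `r = p` allowed, and for a finite group `G` let `D(G)` be the difference of
the two sides of the conjecture. For the wreath product with a cyclic group of order `r` the numbers
`x = k - χ₂` and `x = z_p` satisfy `r x(G ≀ C_r) = x(G)^r + c x(G)`, `c ≡ -1` modulo `r` (starting
library), so that the exponent of `r` in `D(G ≀ C_r)` is one less than in `D(G)` if `r` divides `D(G)`.
Automorphisms of `ℂ` permute the classes and the characters of defect zero, and the length of an orbit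
is the degree of the field of values. So modulo `r` only the classes and the characters count whose
fields of values have degree prime to `r`.
-/

set_option autoImplicit false

open scoped Classical

namespace Pool.Agent.Results.MP_b6945b_al.DegreePrimeToR

open Pool.Agent.H96.KR
open Pool.Agent.Y63.KR (KRC)
open Pool.Agent.K1H2.KR (WrC It krc_it)
open Pool.Agent.R674.Ce (krDiff)

/-- Let `p` and `r` be primes, possibly equal.
1. The Knörr–Robinson conjecture holds for the finite group `G` if and only if for all iterated wreath
products `W` of `G` with groups of order `r` the two counts, restricted to the classes and the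
characters of defect zero whose fields of values have degree prime to `r`, are congruent modulo `r`.
2. The first `a` of these congruences mean that the difference of the two sides of the conjecture for
`G` is divisible by `r ^ a`.
3. If the class `X` of groups is closed under wreath products with `C_r`, then the conjecture holds for
all finite groups in `X` if and only if the congruence holds for all finite groups in `X`. -/
theorem result (p r : ℕ) [Fact p.Prime] [Fact r.Prime] :
    (∀ (G : Type) [Group G] [Finite G],
      KRC p G ↔ ∀ j : ℕ, (r : ℤ) ∣ restrictedDiff p r (It r j G)) ∧
    (∀ (G : Type) [Group G] [Finite G] (a : ℕ), (∃ c : ℤ, krDiff p G = (r : ℚ) ^ a * c) ↔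
      ∀ j < a, (r : ℤ) ∣ restrictedDiff p r (It r j G)) ∧
    (∀ X : (H : Type) → [Group H] → Prop,
      (∀ (H : Type) [Group H], X H → X (WrC r H)) →
      ((∀ (G : Type) [Group G] [Finite G], X G → KRC p G) ↔
        ∀ (G : Type) [Group G] [Finite G], X G → (r : ℤ) ∣ restrictedDiff p r G)) := by
  have h0 : ∀ (G : Type) [Group G] [Finite G],
      (KRC p G ↔ ∀ j : ℕ, (r : ℤ) ∣ restrictedDiff p r (It r j G)) := by
    intro G _ _
    rw [krc_it r p G]
    exact forall_congr' fun j => (krDiff_dvd p r _).trans (dvd_diff' p r _).symm
  refine ⟨h0, fun G _ _ a => ?_, ?_⟩
  · have h1 := krDiff_dvd p (r ^ a) G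
    push_cast at h1
    rw [h1, levels r p a G]
    exact forall_congr' fun j => imp_congr_right fun _ => (dvd_diff' p r _).symm
  · intro X hX
    constructor
    · intro h G _ _ hG
      exact (h0 G).mp (h G hG) 0
    · intro h G _ _ hG
      rw [h0 G]
      have key : ∀ (j : ℕ) (H : Type) [Group H] [Finite H], X H → X (It r j H) := by
        intro j
        induction j with
        | zero => exact fun H _ _ hH => hH
        | succ j ih => exact fun H _ _ hH => ih (WrC r H) (hX H hH)
      exact fun j => h (It r j G) (key j G hG)

end Pool.Agent.Results.MP_b6945b_al.DegreePrimeToR
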