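import Pool.Agent.H96.KR.Gp

/-!
# The Knörr–Robinson conjecture holds if its error misses one residue class

Let `p` be a prime, and for a finite group `G` let `D(G) = k(G) - χ₂(G) - z_p(G)` be the difference
of the two sides of the conjecture. Ingredients:

* Knörr–Robinson: `k(G) - χ₂(G)` is the alternating sum of the numbers of classes of the stabilisers
  of the chains of `p`-subgroups, and only the classes of defect zero matter (starting library).
* For the wreath product with a cyclic group of prime order `q` both `x = k - χ₂` and `x = z_p` satisfy
  `q x(G ≀ C_q) = x(G)^q + c x(G)`, `c = q² - 1` for `q ≠ p` and `c = -1` for `q = p` (starting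
  library), and for a cyclic group `C` of order `m` prime to `p` one has `x(G × C) = m x(G)`.
* `valueDegree f` is the degree over the rationals of the field generated by the values of `f`.
  Automorphisms of `ℂ` permute the classes (of defect zero) and the characters (of defect zero), and
  the length of the orbit of a class or a character is the degree of its field of values. So modulo
  `N` only those count for which this degree is not divisible by `N`.
* If `D(G) ≠ 0` then wreath products with cyclic groups of prime order and products with cyclic groups
  of order prime to `p` lead from `G` to a group `G'` such that `D(G')` is prime to any given number: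
  the wreath product with `C_r` divides the power of `r` in `D` by `r`, and by the choice of the
  multiples one can take care that the other primes do not come back (`Pool/Agent/H96/KR/Ar.lean`).
-/

set_option autoImplicit false

open scoped Classical

namespace Pool.Agent.Results.MP_b6945b_al.OneResidueClass

open Pool.Agent.H96.KR
open Pool.Agent.Y63.KR (KRC)
open Pool.Agent.Y63.AWC (numDefectZero)
open Pool.Agent.R674.Ce (krDiff)
open Pool.Agent.Q90.WR (altK krc_altK)

/-- Let `p` be a prime.
1. For every `N`, the difference `krDiff p G` of the two sides of the Knörr–Robinson conjecture is
congruent modulo `N` to the difference of the two counts restricted to the classes and the characters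
of defect zero whose fields of values have degree not divisible by `N`.
2. Let `X` be a class of groups closed under products with cyclic groups of order prime to `p` and
under wreath products with cyclic groups of prime order, for instance the class of all groups. Let
`N` be any modulus and `u` an integer not divisible by `N`, and prime to `p` if `p` divides `N`. The
conjecture holds for all finite groups in `X` if and only if the restricted difference is congruent to
`u` modulo `N` for no finite group in `X`. -/
theorem result (p : ℕ) [Fact p.Prime] :
    (∀ (N : ℕ) (G : Type) [Group G] [Finite G],
      ∃ c : ℤ, krDiff p G = (restrictedDiff p N G : ℚ) + (N : ℚ) * c) ∧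
    (∀ X : (H : Type) → [Group H] → Prop, Closed p X →
      ∀ (N : ℕ) (u : ℤ), 0 < N → ¬ (N : ℤ) ∣ u → (p ∣ N → ¬ (p : ℤ) ∣ u) →
      ((∀ (G : Type) [Group G] [Finite G], X G → KRC p G) ↔
        ∀ (G : Type) [Group G] [Finite G], X G → ¬ (N : ℤ) ∣ restrictedDiff p N G - u)) ∧
    Closed p (fun _ _ => True) := by
  refine ⟨fun N G _ _ => krDiff_restricted p N G, ?_,
    ⟨fun _ _ _ _ _ _ => trivial, fun _ _ _ _ _ => trivial⟩⟩
  intro X hX N u hN hu hpu
  constructor
  · intro h G _ _ hG h1
    rw [dvd_diff, (krc_altK G).mp (h G hG), sub_self, zero_sub, dvd_neg] at h1
    exact hu h1
  · intro h G _ _ hG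
    by_contra hK
    have hne : altK p G ≠ (numDefectZero p G : ℤ) := fun h1 => hK ((krc_altK G).mpr h1)
    obtain ⟨x, y, ⟨G', i1, i2, h1, h2⟩, h3⟩ := residue (Fact.out : p.Prime) (cl_pairs hX)
      (x := altK p G) (y := (numDefectZero p G : ℤ)) ⟨G, inferInstance, inferInstance, hG, rfl⟩
      hne hN u hpu
    rw [Prod.mk.injEq] at h2
    rw [h2.1, h2.2] at h3
    exact h G' h1 ((dvd_diff p N G' u).mpr h3)

end Pool.Agent.Results.MP_b6945b_al.OneResidueClass
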